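import Mathlib

set_option autoImplicit false

namespace Pool.Agent.Results.MP_ac8c78_lc.NotSunflowerable

open SimpleGraph

/-- `G` is the Henson graph `H_n`: countable, ultrahomogeneous, and its finite induced subgraphs
are exactly the finite `K_n`-free graphs. -/
def IsHenson (n : ℕ) {V : Type} (G : SimpleGraph V) : Prop :=
  Countable V ∧
  (∀ (S T : Set V), S.Finite → ∀ e : G.induce S ≃g G.induce T,
    ∃ φ : G ≃g G, ∀ v : S, φ v = e v) ∧
  ∀ (k : ℕ) (H : SimpleGraph (Fin k)), Nonempty (H ↪g G) ↔ H.CliqueFree n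

/-- `G` is sunflowerable: whenever its vertices are identified with distinct `k`-element sets,
some set of vertices forming a sunflower induces a copy of `G`. -/
def Sunflowerable {V : Type} (G : SimpleGraph V) : Prop :=
  ∀ (k : ℕ) (A : Type) (f : V → Set A), Function.Injective f →
    (∀ v, (f v).Finite ∧ (f v).ncard = k) →
    ∃ M : Set V, (∃ r : Set A, ∀ p ∈ M, ∀ q ∈ M, p ≠ q → f p ∩ f q = r) ∧
      Nonempty (G.induce M ≃g G)

def star (m : ℕ) : SimpleGraph (Fin (m + 1)) := SimpleGraph.fromRel (fun a _ => a = 0)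

theorem star_free (m : ℕ) : (star m).CliqueFree 3 := by
  intro s hs
  obtain ⟨a, b, c, hab, hac, hbc, _⟩ := is3Clique_iff.1 hs
  simp only [star, fromRel_adj] at hab hac hbc
  rcases hab with ⟨h1, h | h⟩ <;> rcases hac with ⟨h2, h' | h'⟩ <;> rcases hbc with ⟨h3, h'' | h''⟩ <;>
    simp_all

theorem inf_nbr {n : ℕ} (hn : 3 ≤ n) {V : Type} {G : SimpleGraph V} (h : IsHenson n G) (v : V) :
    (G.neighborSet v).Infinite := by
  intro hfin
  obtain ⟨e⟩ := (h.2.2 _ (star (hfin.toFinset.card + 1))).2 ((star_free _).mono hn)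
  obtain ⟨φ, hφ⟩ := h.2.1 {e 0} {v} (Set.finite_singleton _)
    ⟨Equiv.ofUnique _ _, by
      intro a b
      have h1 : a = b := Subsingleton.elim _ _
      subst h1
      simp⟩
  have h0 : φ (e 0) = v := by
    have := hφ ⟨e 0, rfl⟩
    rw [this]
    exact Subtype.prop (p := fun x => x ∈ ({v} : Set V)) _
  have := Finset.card_le_card_of_injOn (s := Finset.univ) (t := hfin.toFinset)
    (fun i : Fin (hfin.toFinset.card + 1) => φ (e i.succ)) (by
      intro i _
      simp only [Set.Finite.coe_toFinset, mem_neighborSet]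
      have : G.Adj (φ (e 0)) (φ (e i.succ)) := by
        rw [φ.map_adj_iff, e.map_adj_iff]
        simp [star, (Fin.succ_ne_zero i).symm]
      rwa [h0] at this) (by
      intro i _ j _ hij
      exact Fin.succ_injective _ (e.injective (φ.injective hij)))
  simp at this

theorem result (n : ℕ) (hn : 3 ≤ n) (V : Type) (G : SimpleGraph V) (h : IsHenson n G) :
    ¬ Sunflowerable G := by
  classical
  intro hS
  have := h.1
  obtain ⟨ix, hix⟩ := exists_injective_nat V
  have hex : ∀ v : V, ∃ i, ∃ u, G.Adj v u ∧ ix u = i := by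
    intro v
    obtain ⟨u, hu⟩ := (inf_nbr hn h v).nonempty
    exact ⟨_, u, hu, rfl⟩
  let c : V → ℕ := fun v => Nat.find (hex v)
  have hc : ∀ v u, G.Adj v u → c v ≤ ix u := fun v u huv => Nat.find_min' _ ⟨u, huv, rfl⟩
  have hc' : ∀ v, ∃ u, G.Adj v u ∧ ix u = c v := fun v => Nat.find_spec (hex v)
  obtain ⟨M, ⟨r, hr⟩, ⟨e⟩⟩ := hS 2 (ℕ ⊕ V) (fun v => {Sum.inl (c v), Sum.inr v}) (by
    intro a b hab
    have : (Sum.inr a : ℕ ⊕ V) ∈ ({Sum.inl (c b), Sum.inr b} : Set (ℕ ⊕ V)) := by
      have hab' : ({Sum.inl (c a), Sum.inr a} : Set (ℕ ⊕ V)) = {Sum.inl (c b), Sum.inr b} := hab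
      rw [← hab']; simp
    simpa using this) (fun v => ⟨Set.toFinite _, Set.ncard_pair (by simp)⟩)
  by_cases hmono : ∃ p ∈ M, ∃ q ∈ M, p ≠ q ∧ c p = c q
  · obtain ⟨p, hp, q, hq, hpq, hcpq⟩ := hmono
    have h1 : Sum.inl (c p) ∈ r := by
      rw [← hr p hp q hq hpq]; simp [hcpq]
    have h2 : ∀ a ∈ M, c a = c p := by
      intro a ha
      by_cases hap : a = p
      · rw [hap]
      · rw [← hr a ha p hp hap] at h1
        simpa [eq_comm] using h1.1
    obtain ⟨u, _, hu⟩ := hc' p
    have h3 : ∀ a ∈ M, G.Adj a u := by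
      intro a ha
      obtain ⟨u', h4, h5⟩ := hc' a
      rw [h2 a ha, ← hu] at h5
      rwa [← hix h5]
    obtain ⟨m, rfl⟩ : ∃ m, n = m + 1 := ⟨n - 1, by omega⟩
    obtain ⟨k⟩ := (h.2.2 m ⊤).2 (cliqueFree_of_card_lt (by simp))
    let g : Fin (m + 1) → V := Fin.cons u (fun i => (e.symm (k i) : V))
    have hadj : ∀ i j, i ≠ j → G.Adj (g i) (g j) := by
      intro i j
      refine Fin.cases ?_ (fun i => ?_) i <;> refine Fin.cases ?_ (fun j => ?_) j <;> intro hij
      · exact absurd rfl hij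
      · exact (h3 _ (e.symm (k j)).2).symm
      · exact h3 _ (e.symm (k i)).2
      · have : G.Adj (k i) (k j) := k.map_adj_iff.2 (fun h => hij (by rw [h]))
        exact e.symm.map_adj_iff.2 this
    have hfree := (h.2.2 (m + 1) ⊤).1 ⟨⟨⟨g, fun i j hij => by
      by_contra hne
      exact (hadj i j hne).ne hij⟩, by
      intro i j
      simp only [top_adj]
      exact ⟨fun h hij => h.ne (by rw [hij]), hadj i j⟩⟩⟩
    exact hfree Finset.univ ⟨by intro a _ b _ hab; exact hab, by simp⟩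
  · push Not at hmono
    obtain ⟨k⟩ := (h.2.2 1 ⊤).2 (cliqueFree_of_card_lt (by simp; omega))
    apply inf_nbr hn h (k 0)
    apply Set.Finite.of_finite_image (f := fun w => c (e.symm w))
    · apply (Set.finite_Iic (ix (e.symm (k 0)))).subset
      rintro _ ⟨w, hw, rfl⟩
      have : G.Adj w (k 0) := hw.symm
      exact hc _ _ (e.symm.map_adj_iff.2 this)
    · intro a _ b _ hab
      by_contra hne
      exact hmono _ (e.symm a).2 _ (e.symm b).2
        (fun h => hne (e.symm.injective (Subtype.ext h))) hab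

end Pool.Agent.Results.MP_ac8c78_lc.NotSunflowerable
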